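import Pool.Agent.H8.JS.Targets

/-!
# MP_64fb07_lc, board `js8_modules`: module EC
-/

set_option autoImplicit false

namespace Pool.Agent.H63.JS

open Pool.Agent.H69.Sp Pool.Agent.H69.Mt Pool.Agent.H16.TO Pool.Agent.H8.PL Pool.Agent.H8.JS

theorem pf_ec : J_EC := by
  intro M eq es x c
  refine ⟨fun i s => (i = 0 ∧ ∃ k ≤ x.length, s = [k, num (x.take (x.length - k))]) ∨
    (i = 1 ∧ ∃ t, s = [t, eq (c t).q]) ∨
    (∃ j : Fin (M.k + 1), i = 2 + 2 * j.1 ∧ ∃ t, s = [t, (c t).hd j]) ∨
    (∃ j : Fin (M.k + 1), i = 3 + 2 * j.1 ∧ ∃ t p, s = [t, p, es ((c t).tp j p)]), ?_⟩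
  intro U
  refine ⟨?_, ?_⟩
  · intro i hi s hs
    constructor
    · rintro (⟨-, k, hk, h⟩ | ⟨h, -⟩ | ⟨j, h, -⟩ | ⟨j, h, -⟩)
      · simp only [List.cons.injEq, and_true] at h
        obtain ⟨rfl, rfl⟩ := h
        rfl
      · omega
      · omega
      · omega
    · rintro rfl
      exact Or.inl ⟨rfl, i, hi, rfl⟩
  · intro t
    refine ⟨?_, fun j => ⟨?_, ?_⟩⟩
    · intro s hs
      constructor
      · rintro (⟨h, -⟩ | ⟨-, k, h⟩ | ⟨j, h, -⟩ | ⟨j, h, -⟩)
        · omega
        · simp only [List.cons.injEq, and_true] at h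
          obtain ⟨rfl, rfl⟩ := h
          rfl
        · omega
        · omega
      · rintro rfl
        exact Or.inr (Or.inl ⟨rfl, t, rfl⟩)
    · intro s hs
      constructor
      · rintro (⟨h, -⟩ | ⟨h, -⟩ | ⟨j', h, k, h'⟩ | ⟨j', h, -⟩)
        · omega
        · omega
        · have hj : j' = j := Fin.ext (by omega)
          subst hj
          simp only [List.cons.injEq, and_true] at h'
          obtain ⟨rfl, rfl⟩ := h'
          rfl
        · omega
      · rintro rfl
        exact Or.inr (Or.inr (Or.inl ⟨j, rfl, t, rfl⟩))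
    · intro p hp s hs
      constructor
      · rintro (⟨h, -⟩ | ⟨h, -⟩ | ⟨j', h, -⟩ | ⟨j', h, k, q, h'⟩)
        · omega
        · omega
        · omega
        · have hj : j' = j := Fin.ext (by omega)
          subst hj
          simp only [List.cons.injEq, and_true] at h'
          obtain ⟨rfl, rfl, rfl⟩ := h'
          rfl
      · rintro rfl
        exact Or.inr (Or.inr (Or.inr ⟨j, rfl, t, p, rfl⟩))

end Pool.Agent.H63.JS
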