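import Pool.Agent.H8.JS.Targets

/-!
# MP_64fb07_lc, board `js8_modules`: module FB
-/

set_option autoImplicit false

namespace Pool.Agent.H63.JS

open Pool.Agent.H69.Sp Pool.Agent.H69.Mt Pool.Agent.H16.TO Pool.Agent.H8.PL Pool.Agent.H8.JS

theorem pf_fb : J_FB := by
  intro b
  refine (FD.ex 8 (FD.ex 9 (FD.ex 10 (FD.ex 11 (FD.ex 12 ((FD.succ 8 9).and ((FD.add 5 9 2).and
    ((FD.par 0 [8, 10]).and ((FD.par 0 [9, 11]).and ((FD.add 11 11 12).and
      (((FD.const (b = false)).imp (FD.eq 10 12)).and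
        ((FD.const (b = true)).imp (FD.succ 12 10))))))))))))).congr fun N E v hv => ?_
  simp only [Function.update_self, Function.update_of_ne, ne_eq, not_false_eq_true,
    Nat.reduceEqDiff, EncB, List.map_cons, List.map_nil]

end Pool.Agent.H63.JS
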