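import Pool.Agent.H8.JS.Targets

/-!
# MP_64fb07_lc, board `js8_modules`: module FH
-/

set_option autoImplicit false

namespace Pool.Agent.H63.JS

open Pool.Agent.H69.Sp Pool.Agent.H69.Mt Pool.Agent.H16.TO Pool.Agent.H8.PL Pool.Agent.H8.JS

theorem pf_fh (hFG : J_FG) : J_FH := by
  obtain ⟨h1, h2, -, -⟩ := hFG
  refine ((h2 0 0 1 (by omega) (by omega)).and ((h1 0 2 1 (by omega)).and (FD.all 8
    ((FD.lt 8 2).imp (FD.ex 9 (FD.ex 10 (FD.ex 11 (FD.ex 12 ((FD.succ 8 9).and
      ((h2 0 8 10 (by omega) (by omega)).and ((h2 0 9 11 (by omega) (by omega)).and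
        ((FD.add 11 11 12).and ((FD.eq 10 12).or (FD.succ 12 10)))))))))))))).congr
          fun N E v hv => ?_
  simp only [Function.update_self, Function.update_of_ne, ne_eq, not_false_eq_true,
    Nat.reduceEqDiff, EncH]

end Pool.Agent.H63.JS
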